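import Mathlib
import Pool.Agent.H.MP_8720f8_lc.E

namespace Pool.Agent.Results.MP_8720f8_lc.Undec

open Pool.Agent.H.MP_8720f8_lc

/-- a word: the letter `(j, true)` is `x_j`, the letter `(j, false)` is its inverse -/
abbrev Word := List (ℕ × Bool)

/-- value of a word in `G` under the assignment `g` -/
def ev {G : Type} [Group G] (g : ℕ → G) (W : Word) : G :=
  (W.map fun p => cond p.2 (g p.1) (g p.1)⁻¹).prod

/-- substitute `σ j` for `x_j` (and the formal inverse of `σ j` for the inverse letter) -/
def subst (σ : ℕ → Word) (W : Word) : Word :=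
  W.flatMap fun p => cond p.2 (σ p.1) ((σ p.1).map fun q => (q.1, !q.2)).reverse

/-- words expressible in `Bs` on `G` -/
inductive Expr (G : Type) [Group G] (Bs : List Word) : Word → Prop
  | var (j : ℕ) : Expr G Bs [(j, true)]
  | base (B : Word) : B ∈ Bs → Expr G Bs B
  | sub (W : Word) (σ : ℕ → Word) : Expr G Bs W → (∀ p ∈ W, Expr G Bs (σ p.1)) →
      Expr G Bs (subst σ W)
  | eqv (W W' : Word) : Expr G Bs W → (∀ g : ℕ → G, ev g W = ev g W') → Expr G Bs W'

section
variable {G : Type} [Group G]

theorem ev_eq (g : ℕ → G) (W : Word) : ev g W = FreeGroup.lift g (.mk W) := FreeGroup.lift_mk.symm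

theorem ev_tw (g : ℕ → G) (w : FreeGroup ℕ) : ev g w.toWord = FreeGroup.lift g w := by
  rw [ev_eq, FreeGroup.mk_toWord]

theorem ev_subst (g : ℕ → G) (σ : ℕ → Word) (W : Word) :
    ev g (subst σ W) = ev (fun j => ev g (σ j)) W := by
  induction W with
  | nil => rfl
  | cons p B ih =>
    have e : ∀ a b : Word, ev g (a ++ b) = ev g a * ev g b := fun a b => by simp [ev]
    rw [subst, List.flatMap_cons, e, ← subst, ih]
    obtain ⟨j, _ | _⟩ := p
    · have : ev g ((σ j).map fun q => (q.1, !q.2)).reverse = (ev g (σ j))⁻¹ := by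
        rw [ev_eq, ev_eq, ← map_inv]; rfl
      exact congrArg (· * _) this
    · rfl

theorem inv_S {Bs : List Word} {S : Set G}
    (h : ∀ B ∈ Bs, ∀ g : ℕ → G, (∀ j, g j ∈ S) → ev g B ∈ S) {W : Word} (hW : Expr G Bs W) :
    ∀ g : ℕ → G, (∀ j, g j ∈ S) → ev g W ∈ S := by
  classical
  induction hW with
  | var j => intro g hg; simpa [ev] using hg j
  | base B hB => exact h B hB
  | sub W σ _ _ ih1 ih2 =>
    intro g hg
    rw [ev_subst]
    convert ih1 (fun j => if ∃ p ∈ W, p.1 = j then ev g (σ j) else g j) fun j => ?_ using 1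
    · exact congrArg _ (List.map_congr_left fun p hp => by
        dsimp only; rw [if_pos ⟨p, hp, rfl⟩])
    · split_ifs with k
      · obtain ⟨p, hp, rfl⟩ := k
        exact ih2 p hp g hg
      · exact hg j
  | eqv W W' _ e ih => exact fun g hg => e g ▸ ih g hg

end

def sb (W w : Word) : Word := subst (fun j => if j = 1 then w else [(j, true)]) W

theorem sb_prim (W : Word) : Primrec (sb W) := by
  induction W with
  | nil => exact .const _
  | cons p B ih =>
    unfold sb subst at ih ⊢
    simp only [List.flatMap_cons]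
    refine Primrec.list_append.comp ?_ ih
    obtain ⟨j, _ | _⟩ := p <;> by_cases k : j = 1 <;> simp only [k, cond, if_true, if_false]
    · exact Primrec.list_reverse.comp (Primrec.list_map .id
        ((Primrec.fst.comp .snd).pair (Primrec.not.comp (Primrec.snd.comp .snd))).to₂)
    · exact .const _
    · exact .id
    · exact .const _

theorem ev_sb {G : Type} [Group G] (g : ℕ → G) (W : FreeGroup ℕ) (w : Word) :
    ev g (sb W.toWord w) = FreeGroup.lift (Function.update g 1 (ev g w)) W := by
  rw [sb, ev_subst, ev_tw]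
  congr 2
  funext j
  by_cases h : j = 1 <;> simp [h, ev]

theorem result : ¬ ComputablePred fun x : Word × Word × List Word =>
    ∀ (G : Type) [Group G] [Finite G], Expr G (x.2.1 :: x.2.2) x.1 := by
  classical
  obtain ⟨Γ, _, R, k, s, a, z, hk, hR, h0, h1⟩ := exists_thue
  obtain ⟨ι, hι⟩ := exists_injective_nat Γ
  have : Finite {p : List Γ × List Γ // R p.1 p.2} :=
    (((List.finite_length_le Γ 4).prod (List.finite_length_le Γ 4)).subset
      fun p hp => (hR _ _ hp).2.2 : {p : List Γ × List Γ | R p.1 p.2}.Finite)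
  have := Fintype.ofFinite (Ix R)
  let Bs : List Word := Finset.univ.toList.map fun o => (Op ι R k FreeGroup.of o).toWord
  have eB : ∀ {G : Type} [Group G] (g : ℕ → G) o,
      ev g (Op ι R k FreeGroup.of o).toWord = Op ι R k g o := fun g o => by
    simp [ev_tw, map_Op]
  let D : Γ → Word := fun γ => (DD al FreeGroup.of (ι γ) (FreeGroup.of 1)).toWord
  let A : ℕ → Word := fun n => sb (Tg ι FreeGroup.of z).toWord ((sb (D a))^[n] (D s))
  have hA : Primrec A := (sb_prim _).comp
    (Primrec.nat_iterate .id (.const _) ((sb_prim _).comp .snd).to₂)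
  have eA : ∀ {G : Type} [Group G] (g : ℕ → G) n,
      ev g (A n) = Tg ι g (s :: List.replicate n a ++ z) := by
    intro G _ g n
    have e : ev g ((sb (D a))^[n] (D s)) = DL ι g (s :: List.replicate n a) (g 1) := by
      induction n with
      | zero => simp [D, ev_tw, map_DD _ (map_al _), DL]
      | succ n ih =>
        rw [Function.iterate_succ_apply', ev_sb, ih, map_DD _ (map_al _), List.replicate_succ']
        simp [DL, DD]
    rw [ev_sb, e]
    simp only [Tg, map_mul, map_ph, map_DL, FreeGroup.lift_apply_of]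
    simp [DL, DD]
  intro h
  obtain ⟨c, hc, h⟩ := ComputablePred.computable_iff.1 h
  have hh : ∀ n, (∀ (G : Type) [Group G] [Finite G], Expr G ([(0, true)] :: Bs) (A n)) ↔
      c (A n, [(0, true)], Bs) = true := fun n => by
    generalize A n = w
    generalize Bs = l
    exact iff_of_eq (congrFun h (w, [(0, true)], l))
  refine insep (fun n => c (A n, [(0, true)], Bs))
    (hc.comp (hA.pair (.const _)).to_comp) (fun n hn => (hh n).1 fun G _ _ => ?_) fun n hn => ?_
  · have := sound (ι := ι) (R := R) (k := k)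
      (S := {w : FreeGroup ℕ | Expr G ([(0, true)] :: Bs) w.toWord}) (fun g hg o => ?_)
      FreeGroup.of (fun j => by simpa using Expr.var j) (h0 n hn)
    · refine .eqv _ _ this fun g => ?_
      simp [eA, ev_tw, Tg, map_ph, map_DL]
    · refine .eqv _ _ (.sub _ (fun j => (g j).toWord) (.base _ (List.mem_cons_of_mem _
        (List.mem_map_of_mem (Finset.mem_toList.2 (Finset.mem_univ o))))) fun p _ => hg _)
        fun g' => ?_
      simp [ev_subst, eB, ev_tw, map_Op]
  · obtain ⟨G, _, _, S, g, hS, hg, hT⟩ := counter (h1 n hn)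
      (fun l r e => ⟨(hR l r e).1, (hR l r e).2.1⟩) hk (by simp) hι
    rw [← Bool.not_eq_true, ← hh]
    intro hE
    refine hT (eA g n ▸ inv_S (fun B hB g hg => ?_) (hE G) g hg)
    rcases List.mem_cons.1 hB with rfl | hB
    · simpa [ev] using hg 0
    · obtain ⟨o, -, rfl⟩ := List.mem_map.1 hB
      exact eB g o ▸ hS g hg o

end Pool.Agent.Results.MP_8720f8_lc.Undec
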